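import Pool.Agent.Helper60.FF.StmtsC

/-!
# MP_8312c9_nt, module DI: comparison of two parametrizations of the same disc
-/

set_option autoImplicit false

namespace Pool.Agent.Helper60.FF

open Polynomial

section

variable {p : ℕ} [hp : Fact p.Prime]

/-- a finite extension containing finitely many algebraic elements -/
theorem di_field (E₀ : IntermediateField ℚ_[p] ℂ_[p]) (h₀ : FiniteDimensional ℚ_[p] E₀)
    (S : Set ℂ_[p]) (hS : S.Finite) (hA : ∀ x ∈ S, IsAlgebraic ℚ_[p] x) :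
    ∃ E : IntermediateField ℚ_[p] ℂ_[p], FiniteDimensional ℚ_[p] E ∧ E₀ ≤ E ∧ ∀ x ∈ S, x ∈ E := by
  have := h₀
  have : Finite S := hS
  have : FiniteDimensional ℚ_[p] (IntermediateField.adjoin ℚ_[p] S) :=
    IntermediateField.finiteDimensional_adjoin (fun x hx => (hA x hx).isIntegral)
  refine ⟨E₀ ⊔ IntermediateField.adjoin ℚ_[p] S, inferInstance, le_sup_left, fun x hx => ?_⟩
  exact (le_sup_right : IntermediateField.adjoin ℚ_[p] S ≤ _) (IntermediateField.subset_adjoin _ _ hx)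

/-- an element of norm less than `1` has norm at most the norm of the uniformizer -/
theorem di_lt {E : IntermediateField ℚ_[p] ℂ_[p]} {π : ℂ_[p]} {f : ℕ} (h : LF E π f) {x : ℂ_[p]}
    (hx : x ∈ E) (h1 : ‖x‖ < 1) : ‖x‖ ≤ ‖π‖ := by
  by_cases h0 : x = 0
  · rw [h0, norm_zero]
    exact norm_nonneg _
  obtain ⟨j, hj⟩ := h.val x hx h0
  rw [hj] at h1 ⊢
  have hj1 : 0 < j := by
    by_contra hc
    push Not at hc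
    have : (1 : ℝ) ≤ ‖π‖ ^ j := one_le_zpow_of_nonpos₀ h.pos h.lt.le hc
    linarith
  calc ‖π‖ ^ j ≤ ‖π‖ ^ (1 : ℤ) := zpow_le_zpow_right_of_le_one₀ h.pos h.lt.le (by omega)
    _ = ‖π‖ := zpow_one _

/-- an integral element with zero derivation and zero residue is small -/
theorem di_small (hDER : ST_DER) {E : IntermediateField ℚ_[p] ℂ_[p]} {π : ℂ_[p]} {f : ℕ}
    (h : LF E π f) (hp2 : ‖(p : ℂ_[p])‖ ≤ ‖π‖ ^ 2) {x : ℂ_[p]} (hx : x ∈ E) (h1 : ‖x‖ < 1)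
    (hD : Dv π f x = 0) : ‖x‖ ≤ ‖π‖ ^ 2 := by
  obtain ⟨-, -, hmul, hπ, -, -, -⟩ := hDER p E π f h hp2
  have hπ0 : π ≠ 0 := norm_pos_iff.1 h.pos
  have h2 := di_lt h hx h1
  have h3 : ‖x / π‖ ≤ 1 := by
    rw [norm_div]
    exact div_le_one_of_le₀ h2 (norm_nonneg _)
  have h4 : x / π ∈ E := div_mem hx h.mem
  have h5 := hmul π h.mem (x / π) h4 h.lt.le h3
  rw [mul_div_cancel₀ _ hπ0, hD, (res_eq_zero h.lt.le).2 h.lt, zero_mul, zero_add, hπ, mul_one] at h5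
  have h6 := di_lt h h4 ((res_eq_zero h3).1 h5.symm)
  rw [norm_div, div_le_iff₀ h.pos] at h6
  rw [pow_two]
  exact h6

end

/-- DI: comparison of two parametrizations of the same disc -/
theorem st_DI (hDER : ST_DER) (hRDU : ST_RDU) (hRAMX : ST_RAMX) (hLFX : ST_LFX) (hRFA : ST_RFA)
    (hTRA : ST_TRA) : ST_DI := by
  intro p n hp hPP K a ϖ a' ϖ' hϖ hϖ' hn ha T T' hT hT'
  obtain ⟨hT0, hTn, B, hB, hTB⟩ := hT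
  obtain ⟨hT0', hTn', B', hB', hTB'⟩ := hT'
  have hϖ0 : (ϖ : ℂ_[p]) ≠ 0 := fun h => hϖ (Subtype.ext h)
  have hϖ0' : (ϖ' : ℂ_[p]) ≠ 0 := fun h => hϖ' (Subtype.ext h)
  have hN : (0 : ℝ) < ‖(ϖ : ℂ_[p])‖ := norm_pos_iff.2 hϖ0
  have hε1 : ‖(ϖ : ℂ_[p]) / (ϖ' : ℂ_[p])‖ = 1 := by
    rw [norm_div, ← hn, div_self hN.ne']
  have hδ1 : ‖((a : ℂ_[p]) - (a' : ℂ_[p])) / (ϖ' : ℂ_[p])‖ ≤ 1 := by
    rw [norm_div, ← hn]
    exact div_le_one_of_le₀ ha (norm_nonneg _)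
  have hεne : res ((ϖ : ℂ_[p]) / (ϖ' : ℂ_[p])) ≠ 0 := (norm_eq_one_iff hε1.le).1 hε1
  set ε : RF p := res ((ϖ : ℂ_[p]) / (ϖ' : ℂ_[p])) with hε
  set δ : RF p := res (((a : ℂ_[p]) - (a' : ℂ_[p])) / (ϖ' : ℂ_[p])) with hδ
  have hinj : Function.Injective (fun w : RF p => ε * w + δ) := by
    intro x y hxy
    exact mul_left_cancel₀ hεne (add_right_cancel hxy)
  refine (hB.union (hB'.preimage hinj.injOn)).subset ?_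
  intro w hw
  by_contra hwn
  rw [Set.mem_union, not_or] at hwn
  obtain ⟨hwB, hwB'⟩ := hwn
  rw [Set.mem_preimage] at hwB'
  apply hw
  -- the fields
  obtain ⟨E₁, hE₁, hE₀, hS⟩ := di_field K.E₀ K.fin₀
    ({(a : ℂ_[p]), (ϖ : ℂ_[p]), (a' : ℂ_[p]), (ϖ' : ℂ_[p])} : Set ℂ_[p]) (by simp) (by
      intro x hx
      simp only [Set.mem_insert_iff, Set.mem_singleton_iff] at hx
      rcases hx with rfl | rfl | rfl | rfl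
      · exact K.alg _ a.2
      · exact K.alg _ ϖ.2
      · exact K.alg _ a'.2
      · exact K.alg _ ϖ'.2)
  have haE : (a : ℂ_[p]) ∈ E₁ := hS _ (by simp)
  have hϖE : (ϖ : ℂ_[p]) ∈ E₁ := hS _ (by simp)
  have haE' : (a' : ℂ_[p]) ∈ E₁ := hS _ (by simp)
  have hϖE' : (ϖ' : ℂ_[p]) ∈ E₁ := hS _ (by simp)
  obtain ⟨-, π₁, -, f₁, hLF₁⟩ := hLFX p K.A K.acl E₁ hE₁
  obtain ⟨-, hfin, hcard, hdvd⟩ := hRFA p
  obtain ⟨f₂, hf₂, hwf₂⟩ := hfin w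
  have hf₁ := hLF₁.fpos
  have hf : 0 < f₁ * f₂ := Nat.mul_pos hf₁ hf₂
  obtain ⟨π, hπ⟩ := IsAlgClosed.exists_pow_nat_eq π₁ (show 0 < 4 * n + 2 by omega)
  obtain ⟨E, hE₁E, hLF⟩ := hRAMX p E₁ π₁ f₁ hLF₁ (f₁ * f₂) (4 * n + 2) π (Dvd.intro _ rfl) hf
    (by omega) hπ
  set f : ℕ := f₁ * f₂ with hfdef
  have hfq1 : Fq p f₁ ≤ Fq p f := (hdvd f₁ f hf₁ hf).2 (Dvd.intro _ rfl)
  have hfq2 : Fq p f₂ ≤ Fq p f := (hdvd f₂ f hf₂ hf).2 (Dvd.intro_left _ rfl)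
  have hwf : w ∈ Fq p f := hfq2 hwf₂
  have hπn : ‖π‖ ^ (4 * n + 2) = ‖π₁‖ := by rw [← norm_pow, hπ]
  have hπ12 : ‖π₁‖ ≤ ‖π‖ ^ 2 := by
    rw [← hπn]
    exact pow_le_pow_of_le_one (norm_nonneg _) hLF.lt.le (by omega)
  have hp1 : ‖(p : ℂ_[p])‖ < 1 := by
    rw [norm_p]
    exact inv_lt_one_of_one_lt₀ (by exact_mod_cast hp.out.one_lt)
  have hp2 : ‖(p : ℂ_[p])‖ ≤ ‖π‖ ^ 2 :=
    (di_lt hLF₁ (natCast_mem E₁ p) hp1).trans hπ12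
  obtain ⟨hD1, hDadd, hDmul, hDπ, hDsm, hDtei, hDE⟩ := hDER p E π f hLF hp2
  -- the Teichmueller lifts
  have hεE : (ϖ : ℂ_[p]) / (ϖ' : ℂ_[p]) ∈ E₁ := div_mem hϖE hϖE'
  have hδE : ((a : ℂ_[p]) - (a' : ℂ_[p])) / (ϖ' : ℂ_[p]) ∈ E₁ := div_mem (sub_mem haE haE') hϖE'
  have hεF : ε ∈ Fq p f := hfq1 (hLF₁.rs _ hεE hε1.le)
  have hδF : δ ∈ Fq p f := hfq1 (hLF₁.rs _ hδE hδ1)
  have hw'F : ε * w + δ ∈ Fq p f := (Fq p f).add_mem ((Fq p f).mul_mem hεF hwf) hδF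
  obtain ⟨ζ, hζE, hζt, hζ1, hζr⟩ := hLF.tei w hwf
  obtain ⟨ζ', hζE', hζt', hζ1', hζr'⟩ := hLF.tei (ε * w + δ) hw'F
  have hx1 : ‖(ϖ : ℂ_[p]) / (ϖ' : ℂ_[p]) * ζ‖ ≤ 1 := by
    rw [norm_mul, hε1, one_mul]
    exact hζ1
  have hεζE : (ϖ : ℂ_[p]) / (ϖ' : ℂ_[p]) * ζ ∈ E := mul_mem (hE₁E hεE) hζE
  set x : ℂ_[p] := (ϖ : ℂ_[p]) / (ϖ' : ℂ_[p]) * ζ + ((a : ℂ_[p]) - (a' : ℂ_[p])) / (ϖ' : ℂ_[p])
    with hx
  have hxE : x ∈ E := add_mem hεζE (hE₁E hδE)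
  have hxn : ‖x‖ ≤ 1 := (OO p).add_mem _ _ hx1 hδ1
  have hxr : res x = ε * w + δ := by
    rw [hx, res_add hx1 hδ1, res_mul hε1.le hζ1, hζr]
  have hxD : Dv π f x = 0 := by
    rw [hx, hDadd _ hεζE _ (hE₁E hδE) hx1 hδ1, hDmul _ (hE₁E hεE) _ hζE hε1.le hζ1,
      hDtei ζ hζE hζt, hDE E₁ π₁ f₁ hLF₁ (Dvd.intro _ rfl) hπ12 _ hεE hε1.le,
      hDE E₁ π₁ f₁ hLF₁ (Dvd.intro _ rfl) hπ12 _ hδE hδ1]
    simp
  have hdE : x - ζ' ∈ E := sub_mem hxE hζE'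
  have hdn : ‖x - ζ'‖ < 1 := (res_eq_iff hxn hζ1').1 (by rw [hxr, hζr'])
  have hdD : Dv π f (x - ζ') = 0 := by
    have h1 := hDadd (x - ζ') hdE ζ' hζE' hdn.le hζ1'
    rw [sub_add_cancel, hxD, hDtei ζ' hζE' hζt', add_zero] at h1
    exact h1.symm
  have hd2 : ‖x - ζ'‖ ≤ ‖π‖ ^ 2 := di_small hDER hLF hp2 hdE hdn hdD
  -- the exceptional residues
  obtain ⟨Z, hZ, hZτ⟩ := hTB E₁ π₁ f₁ hLF₁ hE₀ haE hϖE E π f (4 * n + 2) hLF hE₁E (by omega)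
    (dvd_refl _) hπn ζ hζE hζ1 hζt (by rw [hζr]; exact hwB)
  obtain ⟨Z', hZ', hZτ'⟩ := hTB' E₁ π₁ f₁ hLF₁ hE₀ haE' hϖE' E π f (4 * n + 2) hLF hE₁E (by omega)
    (dvd_refl _) hπn ζ' hζE' hζ1' hζt' (by rw [hζr']; exact hwB')
  obtain ⟨ξ, hξF, hξZ, hξZ'⟩ : ∃ ξ ∈ Fq p f, ξ ∉ Z ∧ ε * ξ ∉ Z' := by
    classical
    obtain ⟨hFfin, hFcard⟩ := hcard f hf
    by_contra hcon
    push Not at hcon
    have hsub : ((Fq p f : Set (RF p))) ⊆ ((Z ∪ Z'.image (fun y => ε⁻¹ * y) : Finset (RF p)) :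
        Set (RF p)) := by
      intro ξ hξ
      by_cases h1 : ξ ∈ Z
      · simp [h1]
      · have h2 := hcon ξ hξ h1
        rw [Finset.mem_coe, Finset.mem_union]
        right
        rw [Finset.mem_image]
        exact ⟨ε * ξ, h2, by rw [← mul_assoc, inv_mul_cancel₀ hεne, one_mul]⟩
    have h1 : Nat.card (Fq p f) ≤ (Z ∪ Z'.image (fun y => ε⁻¹ * y)).card := by
      have h2 := Set.ncard_le_ncard hsub (Finset.finite_toSet _)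
      rw [Set.ncard_coe_finset] at h2
      exact h2
    have h2 : (Z ∪ Z'.image (fun y => ε⁻¹ * y)).card ≤ (2 * n + 1) + (2 * n + 1) :=
      (Finset.card_union_le _ _).trans (Nat.add_le_add hZ (Finset.card_image_le.trans hZ'))
    have h3 : p ≤ p ^ f := Nat.le_self_pow hf.ne' p
    have h4 := hPP.big
    rw [hFcard] at h1
    nlinarith
  obtain ⟨z, hzE, -, hz1, hzr⟩ := hLF.tei ξ hξF
  -- the point
  have hδ0 : 0 < ‖(ϖ : ℂ_[p])‖ * ‖π‖ ^ 2 := mul_pos hN (pow_pos hLF.pos 2)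
  have hE : FiniteDimensional ℚ_[p] E := hLF.fin
  have hpt : (a : ℂ_[p]) + (ϖ : ℂ_[p]) * (ζ + π * z) ∈ E :=
    add_mem (hE₁E haE) (mul_mem (hE₁E hϖE) (add_mem hζE (mul_mem hLF.mem hzE)))
  obtain ⟨τ, hτE, hτA, hτ⟩ := hTRA p K.A K.cnt E hE _ hpt _ hδ0
  have hτ1 : ‖(τ - (a : ℂ_[p])) / (ϖ : ℂ_[p]) - ζ - π * z‖ ≤ ‖π‖ ^ 2 := by
    have h1 : (τ - (a : ℂ_[p])) / (ϖ : ℂ_[p]) - ζ - π * z =
        (τ - ((a : ℂ_[p]) + (ϖ : ℂ_[p]) * (ζ + π * z))) / (ϖ : ℂ_[p]) := by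
      field_simp
      ring
    rw [h1, norm_div, div_le_iff₀ hN, mul_comm (‖π‖ ^ 2)]
    exact hτ.le
  have hτ2 : ‖(τ - (a' : ℂ_[p])) / (ϖ' : ℂ_[p]) - ζ' - π * ((ϖ : ℂ_[p]) / (ϖ' : ℂ_[p]) * z)‖ ≤
      ‖π‖ ^ 2 := by
    have h1 : (τ - (a' : ℂ_[p])) / (ϖ' : ℂ_[p]) - ζ' - π * ((ϖ : ℂ_[p]) / (ϖ' : ℂ_[p]) * z) =
        (ϖ : ℂ_[p]) / (ϖ' : ℂ_[p]) * ((τ - (a : ℂ_[p])) / (ϖ : ℂ_[p]) - ζ - π * z) + (x - ζ') := by
      rw [hx]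
      field_simp
      ring
    rw [h1]
    refine (PadicComplex.isNonarchimedean p _ _).trans (max_le ?_ hd2)
    rw [norm_mul, hε1, one_mul]
    exact hτ1
  have hz'1 : ‖(ϖ : ℂ_[p]) / (ϖ' : ℂ_[p]) * z‖ ≤ 1 := by
    rw [norm_mul, hε1, one_mul]
    exact hz1
  have hz'r : res ((ϖ : ℂ_[p]) / (ϖ' : ℂ_[p]) * z) = ε * ξ := by
    rw [res_mul hε1.le hz1, hzr]
  have hR1 := hZτ z hzE hz1 (by rw [hzr]; exact hξZ) τ hτE hτA hτ1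
  have hR2 := hZτ' _ (mul_mem (hE₁E hεE) hzE) hz'1 (by rw [hz'r]; exact hξZ') τ hτE hτA hτ2
  rw [hζr] at hR1
  rw [hζr'] at hR2
  exact (hRDU p (K.χ τ)).2.1 _ _ hR2 hR1

end Pool.Agent.Helper60.FF
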